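import Pool.Agent.Q272.FR.J
import Pool.Agent.Y679.Fh.Gm

/-!
# The stable Faltings height and the height of the modular invariant
-/

set_option autoImplicit false

namespace Pool.Agent.Q272.FR

open Finset Pool.Agent.Q272.LP
open Pool.Agent.H39R3 (GMin condW shortW FullT)
open Pool.Agent.Q272.TR (ht AbcExp SzExp)
open Pool.Agent.TH876.FH (jInv arch ana)
open Pool.Agent.Y679.Fh (IsP ex_P cH)

/-- the modular invariant of a global minimal equation -/
noncomputable def jW (W : WeierstrassCurve ℤ) : ℚ := (W.c₄ : ℚ) ^ 3 / W.Δ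

/-- the stable Faltings height of the elliptic curve -/
noncomputable def st (W : WeierstrassCurve ℤ) (τ : UpperHalfPlane) : ℝ :=
  (Real.log (jW W).den + arch τ) / 12

theorem jW_eq {W : WeierstrassCurve ℤ} {a b u : ℤ} (h : Rel W a b u) : jW W = jq a b := by
  have hD : (Disc a b : ℚ) ≠ 0 := by exact_mod_cast h.min.1
  have hΔ : (W.Δ : ℚ) ≠ 0 := by exact_mod_cast h.gmin.1
  have h1 : HasJ (jW W) a b := by
    refine (j_iff (jW W) W a b u h).mp ?_
    unfold jW
    exact (div_mul_cancel₀ _ hΔ).symm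
  unfold HasJ at h1
  unfold jq
  rw [h1]
  exact (mul_div_cancel_right₀ _ hD).symm

theorem hq_split (q : ℚ) : Real.log (hq q) = Real.log q.den + Real.log (max |(q : ℝ)| 1) := by
  have hd : (0 : ℝ) < q.den := by exact_mod_cast q.den_pos
  have hm : (0 : ℝ) < max |(q : ℝ)| 1 := lt_max_of_lt_right one_pos
  rw [← Real.log_mul hd.ne' hm.ne']
  congr 1
  unfold hq
  rw [mul_max_of_nonneg _ _ hd.le, mul_one, Nat.cast_max]
  congr 1
  have h1 : (q : ℝ) = (q.num : ℝ) / (q.den : ℝ) := by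
    exact_mod_cast (Rat.num_div_den q).symm
  rw [h1, abs_div, abs_of_pos hd, mul_div_cancel₀ _ hd.ne', Nat.cast_natAbs, Int.cast_abs]

theorem norm_jInv {W : WeierstrassCurve ℤ} {τ : UpperHalfPlane} (h : IsP W τ) :
    ‖jInv τ‖ = |((jW W : ℚ) : ℝ)| := by
  have h3 : jInv τ = ((jW W : ℚ) : ℂ) := h
  have h4 : ((jW W : ℚ) : ℂ) = (((jW W : ℚ) : ℝ) : ℂ) := by push_cast; rfl
  rw [h3, h4, Complex.norm_real, Real.norm_eq_abs]

theorem st_le : ∃ C : ℝ, 0 ≤ C ∧ ∀ (W : WeierstrassCurve ℤ) (τ : UpperHalfPlane), IsP W τ →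
    12 * st W τ ≤ Real.log (hq (jW W)) + C := by
  obtain ⟨c, hc⟩ := ana.2
  refine ⟨|c|, abs_nonneg c, fun W τ h => ?_⟩
  have h1 := hc τ
  rw [norm_jInv h] at h1
  rw [hq_split]
  unfold st
  have := le_abs_self c
  linarith

theorem st_ge {δ : ℝ} (hδ : 0 < δ) : ∃ C : ℝ, 0 ≤ C ∧ ∀ (W : WeierstrassCurve ℤ)
    (τ : UpperHalfPlane), IsP W τ → Real.log (hq (jW W)) ≤ (1 + δ) * (12 * st W τ) + C := by
  obtain ⟨c, hc⟩ := ana.1 δ hδ
  refine ⟨|c|, abs_nonneg c, fun W τ h => ?_⟩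
  have h1 := hc τ
  rw [norm_jInv h] at h1
  rw [hq_split]
  unfold st
  have h2 : 0 ≤ Real.log ((jW W).den : ℝ) := Real.log_nonneg (by
    exact_mod_cast (jW W).den_pos)
  have h3 : 0 ≤ δ * Real.log ((jW W).den : ℝ) := by positivity
  have := le_abs_self c
  linarith

/-- the stable height is bounded from below -/
theorem st_low : ∃ C : ℝ, 0 ≤ C ∧ ∀ (W : WeierstrassCurve ℤ) (τ : UpperHalfPlane), IsP W τ →
    -C ≤ st W τ := by
  obtain ⟨C, hC, h⟩ := st_ge one_pos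
  refine ⟨C, hC, fun W τ hτ => ?_⟩
  have h1 := h W τ hτ
  have h2 : 0 ≤ Real.log (hq (jW W)) := Real.log_nonneg (hq_one _)
  linarith

theorem near_of {B s g y η δ C : ℝ} (hB : 0 < B) (hδ : 0 ≤ δ) (hδ1 : δ ≤ 1) (hη : 0 < η)
    (hη1 : η ≤ 1) (hg : 0 ≤ g) (hC : 0 ≤ C) (h1 : s ≤ g + C) (h2 : g ≤ (1 + δ) * s + C)
    (hCB : 2 * C ≤ η * B) (h : |s / B - y| < η ∨ |g / B - y| < η) :
    |s / B - y| < δ * (|y| + 2) + 2 * η ∧ |g / B - y| < δ * (|y| + 2) + 2 * η := by
  have hs : -C ≤ s := by nlinarith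
  have hy := abs_nonneg y
  have e1 : s / B - y = (s - y * B) / B := by field_simp
  have e2 : g / B - y = (g - y * B) / B := by field_simp
  have key : |g - s| ≤ δ * |s| + C := by
    rw [abs_le]
    have := le_abs_self s
    constructor
    · nlinarith [abs_nonneg s]
    · have : δ * s ≤ δ * |s| := by gcongr
      linarith
  have hsb : |s| ≤ (|y| + 2) * B := by
    rcases h with h | h
    · rw [e1, abs_div, abs_of_pos hB, div_lt_iff₀ hB] at h
      have h3 : |s| ≤ |s - y * B| + |y * B| := by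
        have := abs_add_le (s - y * B) (y * B)
        simpa using this
      rw [abs_mul, abs_of_pos hB] at h3
      nlinarith
    · rw [e2, abs_div, abs_of_pos hB, div_lt_iff₀ hB] at h
      have h3 : |g| ≤ |g - y * B| + |y * B| := by
        have := abs_add_le (g - y * B) (y * B)
        simpa using this
      rw [abs_mul, abs_of_pos hB, abs_of_nonneg hg] at h3
      have h4 : |s| ≤ g + C := by
        rw [abs_le]
        constructor <;> linarith
      nlinarith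
  have hgs : |g - s| ≤ δ * (|y| + 2) * B + η / 2 * B := by
    have : δ * |s| ≤ δ * ((|y| + 2) * B) := by gcongr
    linarith
  have hpos : 0 ≤ δ * (|y| + 2) * B := by positivity
  rw [e1, e2, abs_div, abs_div, abs_of_pos hB, div_lt_iff₀ hB, div_lt_iff₀ hB]
  rcases h with h | h
  · rw [e1, abs_div, abs_of_pos hB, div_lt_iff₀ hB] at h
    refine ⟨by nlinarith, ?_⟩
    have h3 : |g - y * B| ≤ |g - s| + |s - y * B| := by
      have := abs_add_le (g - s) (s - y * B)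
      simpa using this
    nlinarith
  · rw [e2, abs_div, abs_of_pos hB, div_lt_iff₀ hB] at h
    refine ⟨?_, by nlinarith⟩
    have h3 : |s - y * B| ≤ |g - s| + |g - y * B| := by
      have := abs_add_le (s - g) (g - y * B)
      rw [abs_sub_comm s g] at this
      simpa using this
    nlinarith

/-- limit points of `h / log N` -/
def LimF (N : WeierstrassCurve ℤ → ℝ) (P : WeierstrassCurve ℤ → Prop) (x : ℝ) : Prop :=
  ∀ ε M : ℝ, 0 < ε → ∃ W τ, GMin W ∧ P W ∧ IsP W τ ∧ M < N W ∧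
    |st W τ / Real.log (N W) - x| < ε

/-- limit points of `h(j) / log N` -/
def LimJ (N : WeierstrassCurve ℤ → ℝ) (P : WeierstrassCurve ℤ → Prop) (x : ℝ) : Prop :=
  ∀ ε M : ℝ, 0 < ε → ∃ W, (GMin W ∧ P W) ∧ M < N W ∧
    |Real.log (hq (jW W)) / Real.log (N W) - x| < ε

theorem limF_iff_J (N : WeierstrassCurve ℤ → ℝ) (P : WeierstrassCurve ℤ → Prop) (x : ℝ) :
    LimF N P x ↔ LimJ N P (12 * x) := by
  obtain ⟨C1, hC1, k1⟩ := st_le
  have hx := abs_nonneg (12 * x)
  -- the choice of the parameters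
  have par : ∀ ε : ℝ, 0 < ε → ∃ δ η : ℝ, 0 < δ ∧ δ ≤ 1 ∧ 0 < η ∧ η ≤ 1 ∧ η ≤ ε ∧
      δ * (|12 * x| + 2) + 2 * η ≤ ε := by
    intro ε hε
    refine ⟨min 1 (ε / (2 * (|12 * x| + 2))), min 1 (ε / 4), by positivity, min_le_left _ _,
      by positivity, min_le_left _ _, (min_le_right _ _).trans (by linarith), ?_⟩
    have h1 : min 1 (ε / (2 * (|12 * x| + 2))) * (|12 * x| + 2) ≤ ε / 2 := by
      calc min 1 (ε / (2 * (|12 * x| + 2))) * (|12 * x| + 2) ≤
          ε / (2 * (|12 * x| + 2)) * (|12 * x| + 2) := by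
            gcongr
            exact min_le_right _ _
        _ = ε / 2 := by field_simp
    have h2 : min 1 (ε / 4) ≤ ε / 4 := min_le_right _ _
    linarith
  have hst : ∀ W τ, 12 * (st W τ / Real.log (N W) - x) =
      12 * st W τ / Real.log (N W) - 12 * x := fun W τ => by ring
  constructor
  · intro h ε M hε
    obtain ⟨δ, η, hδ, hδ1, hη, hη1, -, hsum⟩ := par ε hε
    obtain ⟨C2, hC2, k2⟩ := st_ge hδ
    obtain ⟨M', -, hM'⟩ := big_of (M := M) (R := 2 * (C1 + C2) / η + 1)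
    obtain ⟨W, τ, h1, h2, h3, h4, h5⟩ := h (η / 12) M' (by positivity)
    obtain ⟨h6, h7⟩ := hM' _ h4
    have h8 : 0 ≤ 2 * (C1 + C2) / η := by positivity
    have hB : 0 < Real.log (N W) := by linarith
    refine ⟨W, ⟨h1, h2⟩, h7, ?_⟩
    refine lt_of_lt_of_le (near_of (s := 12 * st W τ) (C := C1 + C2) hB hδ.le hδ1 hη hη1
      (Real.log_nonneg (hq_one _)) (by positivity) (by have := k1 W τ h3; linarith)
      (by have := k2 W τ h3; linarith) ?_ (Or.inl ?_)).2 hsum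
    · have h9 : 2 * (C1 + C2) / η ≤ Real.log (N W) := by linarith
      rw [div_le_iff₀ hη] at h9
      linarith
    · rw [← hst, abs_mul, abs_of_pos (by norm_num : (0 : ℝ) < 12)]
      linarith
  · intro h ε M hε
    obtain ⟨δ, η, hδ, hδ1, hη, hη1, -, hsum⟩ := par ε hε
    obtain ⟨C2, hC2, k2⟩ := st_ge hδ
    obtain ⟨M', -, hM'⟩ := big_of (M := M) (R := 2 * (C1 + C2) / η + 1)
    obtain ⟨W, ⟨h1, h2⟩, h4, h5⟩ := h η M' hη
    obtain ⟨h6, h7⟩ := hM' _ h4
    obtain ⟨τ, hτ⟩ := ex_P W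
    have h8 : 0 ≤ 2 * (C1 + C2) / η := by positivity
    have hB : 0 < Real.log (N W) := by linarith
    refine ⟨W, τ, h1, h2, hτ, h7, ?_⟩
    have h9 := lt_of_lt_of_le (near_of (s := 12 * st W τ) (y := 12 * x) (C := C1 + C2) hB hδ.le
      hδ1 hη hη1
      (Real.log_nonneg (hq_one _)) (by positivity) (by have := k1 W τ hτ; linarith)
      (by have := k2 W τ hτ; linarith) (by
        have h9 : 2 * (C1 + C2) / η ≤ Real.log (N W) := by linarith
        rw [div_le_iff₀ hη] at h9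
        linarith) (Or.inr h5)).1 hsum
    rw [← hst, abs_mul, abs_of_pos (by norm_num : (0 : ℝ) < 12)] at h9
    have := abs_nonneg (st W τ / Real.log (N W) - x)
    linarith

theorem limJ_iff {N : WeierstrassCurve ℤ → ℝ} {C : ℝ} (hC : 1 ≤ C)
    (hN : ∀ W, GMin W → (condW W : ℝ) ≤ N W ∧ N W ≤ C * condW W)
    {P : WeierstrassCurve ℤ → Prop} {Q : ℤ → ℤ → Prop}
    (hPQ : ∀ W a b u, Rel W a b u → (P W ↔ Q a b)) (x : ℝ) : LimJ N P x ↔ LimPt Jh N6 Q x := by
  obtain ⟨K, hK⟩ : ∃ K, K = Real.log (25 * C) + Real.log 25 := ⟨_, rfl⟩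
  have l3 : 0 ≤ Real.log (25 * C) := Real.log_nonneg (by linarith)
  have l4 : 0 ≤ Real.log (25 : ℝ) := Real.log_nonneg (by norm_num)
  have hK0 : 0 ≤ K := by rw [hK]; positivity
  have key : ∀ W a b u, Rel W a b u → 1 ≤ N W ∧ 1 ≤ N6 a b ∧
      |Real.log (hq (jW W)) - Real.log (Jh a b)| ≤ K ∧
      |Real.log (N W) - Real.log (N6 a b)| ≤ K := by
    intro W a b u h
    obtain ⟨n1, n2⟩ := hN W h.gmin
    have hc1 : (1 : ℝ) ≤ condW W := by exact_mod_cast Pool.Agent.Q272.TR.condW_pos W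
    have hc2 := N6_one a b
    obtain ⟨d1, d2⟩ := rel_cond h
    have e1 : (condW W : ℝ) ≤ 25 * N6 a b := by
      unfold N6
      exact_mod_cast Nat.le_of_dvd (by have := cond6_pos a b; omega) d1
    have e2 : N6 a b ≤ 25 * (condW W : ℝ) := by
      unfold N6
      exact_mod_cast Nat.le_of_dvd (by have := Pool.Agent.Q272.TR.condW_pos W; omega) d2
    have hN1 : 1 ≤ N W := hc1.trans n1
    refine ⟨hN1, hc2, ?_, ?_⟩
    · unfold Jh
      rw [jW_eq h, sub_self, abs_zero]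
      exact hK0
    · refine (log_near (C := 25 * C) (D := 25) (by linarith) (by linarith) (by linarith)
        (by norm_num) ?_ ?_).trans (by rw [hK])
      · calc N W ≤ C * condW W := n2
          _ ≤ C * (25 * N6 a b) := by gcongr
          _ = _ := by ring
      · calc N6 a b ≤ 25 * (condW W : ℝ) := e2
          _ ≤ _ := by gcongr
  constructor
  · intro hx
    have h := lim_transfer (α := WeierstrassCurve ℤ) (β := ℤ × ℤ) (Fα := fun W => hq (jW W))
      (Nα := N)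
      (Fβ := fun q => Jh q.1 q.2) (Nβ := fun q => N6 q.1 q.2) (Pα := fun W => GMin W ∧ P W)
      (Pβ := fun q => IsMinimal q.1 q.2 ∧ Q q.1 q.2) hK0 (fun W hW => by
        obtain ⟨a, b, u, hr⟩ := exists_short W hW.1
        obtain ⟨k1, k2, k3, k4⟩ := key W a b u hr
        refine ⟨(a, b), ⟨hr.min, (hPQ W a b u hr).mp hW.2⟩, k1, k2, ?_, ?_⟩
        · rwa [abs_sub_comm]
        · rwa [abs_sub_comm]) hx
    intro ε M hε
    obtain ⟨q, ⟨h1, h2⟩, h3, h4⟩ := h ε M hε
    exact ⟨q.1, q.2, h1, h2, h3, h4⟩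
  · intro hx
    refine lim_transfer (α := ℤ × ℤ) (β := WeierstrassCurve ℤ) (Fβ := fun W => hq (jW W))
      (Nβ := N)
      (Fα := fun q => Jh q.1 q.2) (Nα := fun q => N6 q.1 q.2) (Pβ := fun W => GMin W ∧ P W)
      (Pα := fun q => IsMinimal q.1 q.2 ∧ Q q.1 q.2) hK0 (fun q hq => by
        obtain ⟨W, u, hr⟩ := exists_long hq.1
        obtain ⟨k1, k2, k3, k4⟩ := key W q.1 q.2 u hr
        exact ⟨W, ⟨hr.gmin, (hPQ W q.1 q.2 u hr).mpr hq.2⟩, k2, k1, k3, k4⟩) ?_
    intro ε M hε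
    obtain ⟨a, b, h1, h2, h3, h4⟩ := hx ε M hε
    exact ⟨(a, b), ⟨h1, h2⟩, h3, h4⟩

/-- the inequality from the short models -/
theorem ineqF_of {N : WeierstrassCurve ℤ → ℝ} (hN : ∀ W, GMin W → (condW W : ℝ) ≤ N W)
    {P : WeierstrassCurve ℤ → Prop} {Q : ℤ → ℤ → Prop}
    (hPQ : ∀ W a b u, Rel W a b u → (P W ↔ Q a b)) {κ : ℝ} (hκ : 0 ≤ κ)
    (h : ∃ K : ℝ, ∀ a b, IsMinimal a b → Q a b →
      Real.log (Jh a b) ≤ 12 * κ * Real.log (N6 a b) + K) :
    ∃ c : ℝ, ∀ W τ, GMin W → P W → IsP W τ → st W τ ≤ κ * Real.log (N W) + c := by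
  obtain ⟨K, hK⟩ := h
  obtain ⟨C1, hC1, k1⟩ := st_le
  refine ⟨(K + C1 + 12 * κ * Real.log 25) / 12, fun W τ hW hP hτ => ?_⟩
  obtain ⟨a, b, u, hr⟩ := exists_short W hW
  have h1 := hK a b hr.min ((hPQ W a b u hr).mp hP)
  have h2 := k1 W τ hτ
  have hc1 : (1 : ℝ) ≤ condW W := by exact_mod_cast Pool.Agent.Q272.TR.condW_pos W
  have hNW := hN W hW
  have hN6 := N6_one a b
  have h4 : N6 a b ≤ 25 * N W := by
    have e2 : N6 a b ≤ 25 * (condW W : ℝ) := by
      unfold N6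
      exact_mod_cast Nat.le_of_dvd (by have := Pool.Agent.Q272.TR.condW_pos W; omega)
        (rel_cond hr).2
    linarith
  have h5 := Real.log_le_log (by linarith) h4
  rw [Real.log_mul (by norm_num) (by linarith)] at h5
  have h6 : 12 * κ * Real.log (N6 a b) ≤ 12 * κ * (Real.log 25 + Real.log (N W)) := by gcongr
  unfold Jh at h1
  rw [← jW_eq hr] at h1
  linarith

/-- the inequality bounds the limit points -/
theorem limF_le {N : WeierstrassCurve ℤ → ℝ} {P : WeierstrassCurve ℤ → Prop} {κ : ℝ}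
    (h : ∃ c : ℝ, ∀ W τ, GMin W → P W → IsP W τ → st W τ ≤ κ * Real.log (N W) + c) {x : ℝ}
    (hx : LimF N P x) : x ≤ κ := by
  obtain ⟨C, hC⟩ := h
  by_contra hcon
  push Not at hcon
  set δ := (x - κ) / 2 with hδ
  have hδ0 : 0 < δ := by linarith
  obtain ⟨M', -, hM'⟩ := big_of (M := 0) (R := |C| / δ + 1)
  obtain ⟨W, τ, g1, g2, g3, g4, g5⟩ := hx δ M' hδ0
  obtain ⟨g6, g7⟩ := hM' _ g4
  have hl : 0 ≤ |C| / δ := by positivity
  have hB : 0 < Real.log (N W) := by linarith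
  have h1 := hC W τ g1 g2 g3
  have h2 := (abs_lt.mp g5).1
  have h3 : κ + δ < st W τ / Real.log (N W) := by
    have : x - δ = κ + δ := by rw [hδ]; ring
    linarith
  rw [lt_div_iff₀ hB] at h3
  have h4 : |C| < δ * Real.log (N W) := by
    have : |C| / δ < Real.log (N W) := by linarith
    rwa [div_lt_iff₀ hδ0, mul_comm] at this
  have := le_abs_self C
  nlinarith

end Pool.Agent.Q272.FR
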