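import Pool.Agent.Q272.FR.Lim

/-!
# The height of the modular invariant of short minimal models
-/

set_option autoImplicit false

namespace Pool.Agent.Q272.FR

open Finset Pool.Agent.Q272.LP
open Pool.Agent.Q272.TR (rad rad_pos AbcExp)

/-- the height of a rational number -/
noncomputable def hq (q : ℚ) : ℝ := ((max q.num.natAbs q.den : ℕ) : ℝ)

/-- the modular invariant of `y² = x³ - a x - b` -/
noncomputable def jq (a b : ℤ) : ℚ := 6912 * (a : ℚ) ^ 3 / (Disc a b : ℤ)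

/-- the height of the modular invariant -/
noncomputable def Jh (a b : ℤ) : ℝ := hq (jq a b)

theorem hq_one (q : ℚ) : 1 ≤ hq q := by
  unfold hq
  have h : 1 ≤ max q.num.natAbs q.den := le_max_of_le_right q.den_pos
  exact_mod_cast h

theorem hq_le {X Y : ℤ} (hY : Y ≠ 0) : hq ((X : ℚ) / (Y : ℚ)) ≤ max |(X : ℝ)| |(Y : ℝ)| := by
  have e : (X : ℚ) / (Y : ℚ) = Rat.divInt X Y := (Rat.divInt_eq_div X Y).symm
  rw [e]
  have h1 := Rat.num_dvd X hY
  have h2 := Rat.den_dvd X Y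
  unfold hq
  rw [Nat.cast_max]
  refine max_le ?_ ?_
  · by_cases hX : X = 0
    · rw [hX]
      simp
    · refine le_max_of_le_left ?_
      have h3 : (Rat.divInt X Y).num.natAbs ≤ X.natAbs :=
        Nat.le_of_dvd (Int.natAbs_pos.mpr hX) (Int.natAbs_dvd_natAbs.mpr h1)
      have h4 : ((X.natAbs : ℕ) : ℝ) = |(X : ℝ)| := by
        rw [Nat.cast_natAbs, Int.cast_abs]
      rw [← h4]
      exact_mod_cast h3
  · refine le_max_of_le_right ?_
    have h3 : (Rat.divInt X Y).den ≤ Y.natAbs := by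
      refine Nat.le_of_dvd (Int.natAbs_pos.mpr hY) ?_
      exact Int.natCast_dvd.mp h2
    have h4 : ((Y.natAbs : ℕ) : ℝ) = |(Y : ℝ)| := by
      rw [Nat.cast_natAbs, Int.cast_abs]
    rw [← h4]
    exact_mod_cast h3

theorem jq_twist (a b : ℤ) {l : ℕ} (hl : l.Prime) :
    jq ((l : ℤ) ^ 2 * a) ((l : ℤ) ^ 3 * b) = jq a b := by
  unfold jq
  rw [disc_twist]
  have hl0 : (l : ℚ) ^ 6 ≠ 0 := pow_ne_zero _ (by exact_mod_cast hl.ne_zero)
  push_cast
  rw [show 6912 * ((l : ℚ) ^ 2 * (a : ℚ)) ^ 3 = (l : ℚ) ^ 6 * (6912 * (a : ℚ) ^ 3) by ring]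
  exact mul_div_mul_left _ _ hl0

theorem inv_J : Inv Jh where
  one := fun _ _ _ => hq_one _
  twist := fun a b l hl => by unfold Jh; rw [jq_twist a b hl]

theorem Jh_le {a b : ℤ} (h : Disc a b ≠ 0) : Jh a b ≤ 1728 * Hs a b := by
  have e : jq a b = ((6912 * a ^ 3 : ℤ) : ℚ) / ((Disc a b : ℤ) : ℚ) := by
    unfold jq
    push_cast
    rfl
  unfold Jh
  rw [e]
  refine (hq_le h).trans (max_le ?_ ?_)
  · have h1 : 4 * |(a : ℝ)| ^ 3 ≤ Hs a b := le_max_left _ _
    push_cast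
    rw [abs_mul, abs_pow, abs_of_pos (by norm_num : (0 : ℝ) < 6912)]
    linarith
  · have h1 := absD_le a b
    have h2 := hs_nonneg a b
    unfold absD at h1
    linarith

/-- the curve of a triple: its modular invariant is large -/
theorem tri_J {A B : ℕ} (h : Nat.Coprime A B) (hA : 0 < A) (hB : 0 < B) :
    ((A + B : ℕ) : ℝ) ^ 6 ≤ 136048896 * Jh (ta A B) (tb A B) := by
  have hcop : IsCoprime (A : ℤ) (B : ℤ) := Nat.isCoprime_iff_coprime.mpr h
  set T : ℤ := (A : ℤ) ^ 2 + A * B + (B : ℤ) ^ 2 with hT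
  set U : ℤ := (A : ℤ) * B * (A + B) with hU
  have hA' : (0 : ℤ) < A := by exact_mod_cast hA
  have hB' : (0 : ℤ) < B := by exact_mod_cast hB
  have hT0 : 0 < T := by positivity
  have hU0 : 0 < U := by positivity
  have hTU : IsCoprime T U := by
    rw [Int.isCoprime_iff_gcd_eq_one]
    by_contra hne
    obtain ⟨p, hp, hpd⟩ := Nat.exists_prime_and_dvd hne
    have h1 : (p : ℤ) ∣ T := (Int.natCast_dvd_natCast.mpr hpd).trans (Int.gcd_dvd_left _ _)
    have h2 : (p : ℤ) ∣ U := (Int.natCast_dvd_natCast.mpr hpd).trans (Int.gcd_dvd_right _ _)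
    exact tri_cop hcop hp h1 h2
  have hD : Disc (ta A B) (tb A B) = 729 * U ^ 2 := tri_disc A B
  have hD0 : Disc (ta A B) (tb A B) ≠ 0 := by rw [hD]; positivity
  set q := jq (ta A B) (tb A B) with hq'
  have e : q * ((Disc (ta A B) (tb A B) : ℤ) : ℚ) = 6912 * ((ta A B : ℤ) : ℚ) ^ 3 := by
    rw [hq']
    unfold jq
    exact div_mul_cancel₀ _ (by exact_mod_cast hD0)
  have e2 : q.num * (729 * U ^ 2) = 186624 * T ^ 3 * q.den := by
    have h1 : (q.num : ℚ) = q * q.den := (Rat.mul_den_eq_num q).symm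
    have h2 : (q.num : ℚ) * (729 * (U : ℚ) ^ 2) = 186624 * (T : ℚ) ^ 3 * q.den := by
      rw [hD] at e
      push_cast at e
      rw [h1]
      have h3 : ((ta A B : ℤ) : ℚ) = 3 * (T : ℚ) := by
        rw [hT]
        unfold ta
        push_cast
        ring
      rw [h3] at e
      linear_combination (q.den : ℚ) * e
    exact_mod_cast h2
  have hd : T ^ 3 ∣ q.num * 729 := by
    have h1 : T ^ 3 ∣ q.num * 729 * U ^ 2 := by
      rw [mul_assoc, e2]
      exact ⟨186624 * q.den, by ring⟩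
    exact (IsCoprime.pow hTU).dvd_of_dvd_mul_right h1
  have hn0 : q.num ≠ 0 := by
    intro h0
    rw [h0, zero_mul] at e2
    have : 186624 * T ^ 3 * (q.den : ℤ) ≠ 0 := by
      have := q.den_nz
      positivity
    exact this e2.symm
  have h3 : T ^ 3 ≤ |q.num| * 729 := by
    have h4 := Int.le_of_dvd (by have := abs_pos.mpr hn0; positivity)
      (show T ^ 3 ∣ |q.num| * 729 by
        have h5 : |q.num| * 729 = |q.num * 729| := by
          rw [abs_mul]
          norm_num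
        rw [h5]
        exact (dvd_abs _ _).mpr hd)
    exact h4
  have h6 : (|q.num| : ℤ) ≤ max q.num.natAbs q.den := by
    rw [Int.abs_eq_natAbs]
    exact_mod_cast le_max_left _ _
  have h7 : ((A : ℤ) + B) ^ 6 ≤ 186624 * T ^ 3 := by
    have h8 : ((A : ℤ) + B) ^ 2 ≤ 2 * T := by
      rw [hT]
      nlinarith [sq_nonneg ((A : ℤ) - B)]
    have h9 : (((A : ℤ) + B) ^ 2) ^ 3 ≤ (2 * T) ^ 3 := pow_le_pow_left₀ (by positivity) h8 3
    have h10 : (0 : ℤ) ≤ T ^ 3 := by positivity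
    calc ((A : ℤ) + B) ^ 6 = (((A : ℤ) + B) ^ 2) ^ 3 := by ring
      _ ≤ (2 * T) ^ 3 := h9
      _ = 8 * T ^ 3 := by ring
      _ ≤ _ := by linarith
  have h11 : ((A : ℤ) + B) ^ 6 ≤ 136048896 * ((max q.num.natAbs q.den : ℕ) : ℤ) := by
    calc ((A : ℤ) + B) ^ 6 ≤ 186624 * T ^ 3 := h7
      _ ≤ 186624 * (|q.num| * 729) := by gcongr
      _ ≤ 186624 * (((max q.num.natAbs q.den : ℕ) : ℤ) * 729) := by
          push_cast
          push_cast at h6
          gcongr
      _ = _ := by ring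
  unfold Jh
  rw [← hq']
  unfold hq
  exact_mod_cast h11

/-- the abc inequality fails for exponents below one -/
theorem abc_lt_one {l : ℝ} (h0 : 0 ≤ l) (hl : l < 1) : ¬ AbcExp l := by
  rintro ⟨C, hC⟩
  have hC' : ∀ n : ℕ, 1 ≤ n → ((2 : ℝ) ^ n) ^ (1 - l) ≤ |C| * 2 ^ l := by
    intro n hn
    have h2 : 2 ≤ 2 ^ n := by
      calc 2 = 2 ^ 1 := (pow_one 2).symm
        _ ≤ 2 ^ n := Nat.pow_le_pow_right (by norm_num) hn
    have h3 := hC 1 (2 ^ n - 1) (2 ^ n) one_pos (by omega) (by omega) (Nat.coprime_one_left _)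
    have h4 : rad (1 * (2 ^ n - 1) * 2 ^ n) ≤ 2 * 2 ^ n := by
      have e1 : (1 * (2 ^ n - 1) * 2 ^ n).primeFactors = (2 ^ n - 1).primeFactors ∪ {2} := by
        rw [one_mul, Nat.primeFactors_mul (by omega) (by positivity),
          Nat.primeFactors_pow _ (by omega), Nat.prime_two.primeFactors]
      unfold rad
      rw [e1]
      have h5 : ∏ p ∈ (2 ^ n - 1).primeFactors ∪ {2}, p ≤
          (∏ p ∈ (2 ^ n - 1).primeFactors, p) * ∏ p ∈ ({2} : Finset ℕ), p := by
        have h6 := Finset.prod_union_inter (s₁ := (2 ^ n - 1).primeFactors) (s₂ := {2})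
          (f := fun p : ℕ => p)
        rw [← h6]
        refine Nat.le_mul_of_pos_right _ (prod_pos fun p hp => ?_)
        exact (Nat.prime_of_mem_primeFactors (mem_inter.mp hp).1).pos
      refine h5.trans ?_
      rw [prod_singleton]
      have h7 : ∏ p ∈ (2 ^ n - 1).primeFactors, p ≤ 2 ^ n - 1 :=
        Nat.le_of_dvd (by omega) (Nat.prod_primeFactors_dvd _)
      calc (∏ p ∈ (2 ^ n - 1).primeFactors, p) * 2 ≤ (2 ^ n - 1) * 2 := Nat.mul_le_mul_right _ h7
        _ ≤ 2 * 2 ^ n := by omega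
    have h5 : (rad (1 * (2 ^ n - 1) * 2 ^ n) : ℝ) ≤ 2 * 2 ^ n := by exact_mod_cast h4
    have h6 : (0 : ℝ) < rad (1 * (2 ^ n - 1) * 2 ^ n) := by exact_mod_cast rad_pos _
    have h7 : (rad (1 * (2 ^ n - 1) * 2 ^ n) : ℝ) ^ l ≤ (2 * 2 ^ n) ^ l :=
      Real.rpow_le_rpow h6.le h5 h0
    have h8 : ((2 : ℝ) ^ n) ≤ |C| * (2 ^ l * (2 ^ n) ^ l) := by
      have h9 : (((2 ^ n : ℕ) : ℝ)) ≤ |C| * (rad (1 * (2 ^ n - 1) * 2 ^ n) : ℝ) ^ l := by
        refine h3.trans ?_
        have : (0 : ℝ) ≤ (rad (1 * (2 ^ n - 1) * 2 ^ n) : ℝ) ^ l := by positivity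
        have := le_abs_self C
        gcongr
      rw [← Real.mul_rpow (by norm_num) (by positivity)]
      push_cast at h9
      exact h9.trans (by gcongr)
    have hp : (0 : ℝ) < ((2 : ℝ) ^ n) ^ l := by positivity
    rw [Real.rpow_sub (by positivity), Real.rpow_one, div_le_iff₀ hp]
    linarith
  have hl' : 0 < 1 - l := by linarith
  have ht : Filter.Tendsto (fun n : ℕ => ((2 : ℝ) ^ n) ^ (1 - l)) Filter.atTop Filter.atTop :=
    (tendsto_rpow_atTop hl').comp (tendsto_pow_atTop_atTop_of_one_lt (by norm_num))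
  obtain ⟨n, hn1, hn2⟩ := ((ht.eventually_gt_atTop (|C| * 2 ^ l)).and
    (Filter.eventually_ge_atTop 1)).exists
  exact absurd (hC' n hn2) (not_le.mpr hn1)

/-- the upper bound from abc -/
theorem fullJ_up {l : ℝ} (hl : 1 ≤ l) (h : AbcExp l) : ∃ c' : ℝ, ∀ a b, IsMinimal a b →
    FullTwoTorsion a b → Real.log (Jh a b) ≤ 6 * l * Real.log (N6 a b) + c' := by
  obtain ⟨c', hc'⟩ := full_up hl h
  refine ⟨c' + Real.log 1728, fun a b hmin hf => ?_⟩
  have h1 := hc' a b hmin hf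
  have h2 := Jh_le hmin.1
  have h3 : 1 ≤ Jh a b := hq_one _
  have h4 := hs_one hmin.1
  have h5 := Real.log_le_log (by linarith) h2
  rw [Real.log_mul (by norm_num) (by linarith)] at h5
  linarith

/-- large abc triples give limit points -/
theorem fullJ_reach {l : ℝ} (hl : 0 < l) (h : ¬ AbcExp l) :
    LimPt Jh N6 FullTwoTorsion (6 * l) := by
  refine reach_excess inv_J tc_full (by linarith) fun K => ?_
  unfold AbcExp at h
  push Not at h
  obtain ⟨A, B, c, hA, hB, hc, hco, hlt⟩ := h (Real.exp ((K + Real.log 136048896) / 6))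
  subst hc
  have hcop : IsCoprime (A : ℤ) (B : ℤ) := Nat.isCoprime_iff_coprime.mpr hco
  have hne : (A : ℤ) * B * ((A : ℤ) + B) ≠ 0 := by
    have : (0 : ℤ) < A := by exact_mod_cast hA
    have : (0 : ℤ) < B := by exact_mod_cast hB
    positivity
  obtain ⟨hc1, -⟩ := tri_cond hco hA hB
  have hN1 := N6_one (ta A B) (tb A B)
  have hmin := tri_min hcop hne
  refine ⟨ta A B, tb A B, hmin, tri_full _ _, ?_⟩
  have hR : (0 : ℝ) < (rad (A * B * (A + B)) : ℝ) := by exact_mod_cast rad_pos _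
  have hN : N6 (ta A B) (tb A B) ≤ (rad (A * B * (A + B)) : ℝ) := by
    unfold N6 rad
    exact_mod_cast hc1
  have hlogN := Real.log_le_log (by linarith) hN
  have h1 := Real.log_le_log (by positivity) hlt.le
  rw [Real.log_mul (Real.exp_pos _).ne' (by positivity), Real.log_exp, Real.log_rpow hR] at h1
  have hAB : (0 : ℝ) < ((A + B : ℕ) : ℝ) := by
    have : 0 < A + B := by omega
    exact_mod_cast this
  have h2 := Real.log_le_log (by positivity) (tri_J hco hA hB)
  have hJ1 : 1 ≤ Jh (ta A B) (tb A B) := hq_one _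
  rw [Real.log_pow, Real.log_mul (by norm_num) (by linarith)] at h2
  push_cast at h2
  push_cast at h1
  have h3 : l * Real.log (N6 (ta A B) (tb A B)) ≤ l * Real.log (rad (A * B * (A + B)) : ℝ) := by
    gcongr
  linarith

/-- full rational 2-torsion -/
theorem lim_fullJ (x : ℝ) : LimPt Jh N6 FullTwoTorsion x ↔
    0 ≤ x ∧ ∀ l : ℝ, 1 ≤ l → AbcExp l → x ≤ 6 * l := by
  have hcop : IsCoprime (1 : ℤ) (1 : ℤ) := isCoprime_one_left
  obtain ⟨S, hS0, hS⟩ := interval inv_J tc_full ⟨ta 1 1, tb 1 1, tri_min hcop (by norm_num),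
    tri_full _ _⟩
  constructor
  · intro hx
    exact ⟨((hS x).mp hx).1, fun l hl habc => lim_le (fullJ_up hl habc) hx⟩
  · rintro ⟨h0, h⟩
    rcases h0.eq_or_lt with hx | hx
    · rw [← hx]
      exact (hS 0).mpr ⟨le_rfl, by exact_mod_cast hS0⟩
    · refine lim_closed fun δ hδ => ?_
      set ε : ℝ := min (δ / 2) (x / 2) with hε
      have hε0 : 0 < ε := by positivity
      have h1 : ε ≤ δ / 2 := min_le_left _ _
      have h2 : ε ≤ x / 2 := min_le_right _ _
      have hl0 : 0 < (x - ε) / 6 := by linarith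
      refine ⟨6 * ((x - ε) / 6), ?_, fullJ_reach hl0 fun hc => ?_⟩
      · have : 6 * ((x - ε) / 6) - x = -ε := by ring
        rw [this, abs_neg, abs_of_pos hε0]
        linarith
      · by_cases h3 : (x - ε) / 6 < 1
        · exact abc_lt_one hl0.le h3 hc
        · push Not at h3
          have := h _ h3 hc
          linarith

/-- a fixed invariant -/
theorem lim_jJ (j : ℚ) (hne : ∃ a b, IsMinimal a b ∧ HasJ j a b) (x : ℝ) :
    LimPt Jh N6 (HasJ j) x ↔ x = 0 := by
  have key : ∀ a b, IsMinimal a b → HasJ j a b → jq a b = j := by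
    intro a b hm h
    unfold HasJ at h
    unfold jq
    rw [h]
    exact mul_div_cancel_right₀ _ (by exact_mod_cast hm.1)
  obtain ⟨a0, b0, hm0, hp0⟩ := hne
  obtain ⟨S, hS0, hS⟩ := interval inv_J (tc_j j) ⟨a0, b0, hm0, hp0⟩
  constructor
  · intro hx
    refine le_antisymm ?_ ((hS x).mp hx).1
    refine lim_le ⟨Real.log (hq j), fun a b hm hp => ?_⟩ hx
    unfold Jh
    rw [key a b hm hp]
    linarith
  · rintro rfl
    exact (hS 0).mpr ⟨le_rfl, by exact_mod_cast hS0⟩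

end Pool.Agent.Q272.FR
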