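import Pool.Agent.Q272.LP.Classes

/-!
# Limit points of `log Φ / log N` for sizes `Φ` that are invariant under quadratic twists
-/

set_option autoImplicit false

namespace Pool.Agent.Q272.FR

open Finset Pool.Agent.Q272.LP

/-- sizes that are invariant under twists -/
structure Inv (Φ : ℤ → ℤ → ℝ) : Prop where
  one : ∀ a b, IsMinimal a b → 1 ≤ Φ a b
  twist : ∀ (a b : ℤ) (l : ℕ), l.Prime → Φ ((l : ℤ) ^ 2 * a) ((l : ℤ) ^ 3 * b) = Φ a b

/-- the primes from five on that divide the discriminant divide the conductor -/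
theorem dvd_cond6 {a b : ℤ} (h0 : Disc a b ≠ 0) {l : ℕ} (hl : l.Prime) (h5 : 5 ≤ l)
    (hd : (l : ℤ) ∣ Disc a b) : l ∣ Cond6 a b := by
  have h1 : l ∈ (Disc a b).natAbs.primeFactors.filter (fun p => 5 ≤ p) :=
    mem_filter.mpr ⟨Nat.mem_primeFactors.mpr ⟨hl, Int.natCast_dvd.mp hd,
      Int.natAbs_ne_zero.mpr h0⟩, h5⟩
  unfold Cond6
  refine dvd_trans ?_ (dvd_prod_of_mem _ h1)
  split_ifs
  · exact dvd_pow_self _ (by norm_num)
  · exact dvd_rfl

/-- the twist -/
theorem twist_to {Φ : ℤ → ℤ → ℝ} (hΦ : Inv Φ) {P : ℤ → ℤ → Prop} (hP : TwistClosed P)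
    {a b : ℤ} (hmin : IsMinimal a b) (hab : P a b) {L : ℝ} (hL : 2 ≤ L) (k : ℕ)
    (hk : Real.log (N6 a b) ≤ k * L) :
    ∃ (a' b' : ℤ) (t : ℝ), IsMinimal a' b' ∧ P a' b' ∧ L ≤ t ∧ t ≤ L + k + 2 ∧
      Real.log (Φ a' b') = Real.log (Φ a b) ∧
      Real.log (N6 a' b') = Real.log (N6 a b) + 2 * t ∧ N6 a b ≤ N6 a' b' := by
  set m : ℕ := ⌈Real.exp L⌉₊ with hm
  have he : Real.exp L ≤ m := Nat.le_ceil _
  have he0 := Real.exp_pos L
  have he7 : (7 : ℝ) < Real.exp L := by
    have h1 : Real.exp 2 ≤ Real.exp L := Real.exp_le_exp.mpr hL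
    have h2 : Real.exp 2 = Real.exp 1 ^ 2 := by rw [← Real.exp_nat_mul]; norm_num
    have h3 := Real.exp_one_gt_d9
    nlinarith
  have hm1 : (m : ℝ) ≤ 2 * Real.exp L := by
    have := Nat.ceil_lt_add_one he0.le
    rw [← hm] at this
    linarith
  have hmpos : (0 : ℝ) < m := by linarith
  have hm5 : 5 ≤ m := by
    have : (5 : ℝ) ≤ m := by linarith
    exact_mod_cast this
  have hlogm : L ≤ Real.log m := by rwa [Real.le_log_iff_exp_le hmpos]
  have hlogm2 : Real.log m ≤ L + 1 := by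
    have h1 : Real.log m ≤ Real.log (2 * Real.exp L) := Real.log_le_log hmpos hm1
    rw [Real.log_mul (by norm_num) he0.ne', Real.log_exp] at h1
    have := Real.log_two_lt_d9
    linarith
  obtain ⟨l, hl, hl1, hl2, hl3⟩ := exists_prime (Cond6 a b) (cond6_pos a b) m k (by omega) (by
    have h2 : (k : ℝ) * L ≤ k * Real.log m := by gcongr
    unfold N6 at hk
    linarith)
  have h5l : 5 ≤ l := by omega
  have hlD : ¬ (l : ℤ) ∣ Disc a b := fun hc => hl3 (dvd_cond6 hmin.1 hl h5l hc)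
  have hl0 : (0 : ℝ) < l := by exact_mod_cast hl.pos
  refine ⟨_, _, Real.log l, twist_min hmin hl hlD, hP a b l hl h5l hlD hab, ?_, ?_, ?_, ?_, ?_⟩
  · refine hlogm.trans (Real.log_le_log hmpos ?_)
    exact_mod_cast hl1.le
  · have h1 : (l : ℝ) ≤ 2 ^ (k + 1) * m := by exact_mod_cast hl2
    have h2 := Real.log_le_log hl0 h1
    rw [Real.log_mul (by positivity) hmpos.ne', Real.log_pow] at h2
    push_cast at h2
    have h3 := Real.log_two_lt_d9
    have h4 : ((k : ℝ) + 1) * Real.log 2 ≤ (k + 1) * 1 := by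
      gcongr
      linarith
    linarith
  · rw [hΦ.twist a b l hl]
  · unfold N6
    rw [twist_cond hmin.1 hl h5l hlD]
    have := cond6_pos a b
    push_cast
    rw [Real.log_mul (by positivity) (by positivity), Real.log_pow]
    push_cast
    ring
  · unfold N6
    rw [twist_cond hmin.1 hl h5l hlD]
    have h1 : 1 ≤ l ^ 2 := Nat.one_le_pow _ _ hl.pos
    exact_mod_cast Nat.le_mul_of_pos_left _ h1

/-- the value `0` -/
theorem reach_zero {Φ : ℤ → ℤ → ℝ} (hΦ : Inv Φ) {P : ℤ → ℤ → Prop}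
    (hP : TwistClosed P) {a b : ℤ} (hmin : IsMinimal a b) (hab : P a b) : LimPt Φ N6 P 0 := by
  intro ε M hε
  set A := Real.log (Φ a b) with hA
  set B := Real.log (N6 a b) with hB
  have hA0 : 0 ≤ A := Real.log_nonneg (hΦ.one a b hmin)
  have hB0 : 0 ≤ B := Real.log_nonneg (N6_one a b)
  have hM := abs_nonneg M
  have hAe : 0 ≤ A / ε := by positivity
  set L : ℝ := A / ε + B + |M| + 2 with hL
  obtain ⟨a', b', t, h1, h2, h3, h4, h5, h6, h7⟩ := twist_to hΦ hP hmin hab (L := L) (by linarith) 1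
    (by push_cast; linarith)
  refine ⟨a', b', h1, h2, ?_, ?_⟩
  · have h8 : M < Real.log (N6 a' b') := by
      rw [h6]
      have := le_abs_self M
      linarith
    have h9 : Real.log (N6 a' b') ≤ N6 a' b' - 1 :=
      Real.log_le_sub_one_of_pos (by have := N6_one a' b'; linarith)
    linarith
  · rw [h5, h6, ← hA, ← hB, sub_zero]
    have ht : 0 < t := by linarith
    have hpos : 0 < B + 2 * t := by linarith
    rw [abs_of_nonneg (by positivity), div_lt_iff₀ hpos]
    have h10 : A / ε < B + 2 * t := by linarith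
    rw [div_lt_iff₀ hε] at h10
    linarith

/-- the limit points are closed under passing to smaller values -/
theorem reach_below {Φ : ℤ → ℤ → ℝ} (hΦ : Inv Φ) {P : ℤ → ℤ → Prop}
    (hP : TwistClosed P) {y : ℝ} (hy : 0 < y)
    (h : ∀ ε M : ℝ, 0 < ε → ∃ a b : ℤ, IsMinimal a b ∧ P a b ∧ M < N6 a b ∧
      (y - ε) * Real.log (N6 a b) ≤ Real.log (Φ a b)) : LimPt Φ N6 P y := by
  intro ε M hε
  set k : ℕ := ⌈4 * y / ε⌉₊ with hk
  have hk0 : 4 * y / ε ≤ k := Nat.le_ceil _
  set R : ℝ := k + 2 with hR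
  have hR0 : 0 < R := by positivity
  set T : ℝ := 2 * (4 * y / ε) + (2 * y * R) / ε + 1 with hT
  have hT1 : 0 < T := by positivity
  obtain ⟨M', -, hM'⟩ := big_of (M := M) (R := T)
  obtain ⟨a, b, h1, h2, h3, h4⟩ := h (ε / 2) M' (by linarith)
  obtain ⟨h5, h6⟩ := hM' _ h3
  set A := Real.log (Φ a b) with hA
  set B := Real.log (N6 a b) with hB
  have hB0 : 0 < B := by linarith
  by_cases hcase : A ≤ (y + ε / 2) * B
  · refine ⟨a, b, h1, h2, h6, ?_⟩
    rw [← hA, ← hB, abs_lt]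
    constructor
    · rw [lt_sub_iff_add_lt, lt_div_iff₀ hB0]
      nlinarith
    · rw [sub_lt_iff_lt_add, div_lt_iff₀ hB0]
      nlinarith
  · push Not at hcase
    set L : ℝ := (A - y * B) / (2 * y) with hL
    have hLw : 2 * y * L = A - y * B := by
      rw [hL]; field_simp
    have hLB : ε / (4 * y) * B ≤ L := by
      rw [hL, le_div_iff₀ (by positivity)]
      have : ε / (4 * y) * B * (2 * y) = ε / 2 * B := by field_simp; ring
      rw [this]
      linarith
    have hTB : 2 ≤ ε / (4 * y) * B := by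
      have h7 : ε / (4 * y) * (2 * (4 * y / ε)) = 2 := by field_simp
      rw [← h7]
      gcongr
      have : 0 ≤ (2 * y * R) / ε := by positivity
      linarith
    have hBL : B ≤ k * L := by
      have h82 : 4 * y / ε * (ε / (4 * y) * B) = B := by field_simp
      calc B = 4 * y / ε * (ε / (4 * y) * B) := h82.symm
        _ ≤ 4 * y / ε * L := by gcongr
        _ ≤ k * L := by
            have : 0 ≤ L := by linarith
            gcongr
    obtain ⟨a', b', t, g1, g2, g3, g4, g5, g6, g7⟩ := twist_to hΦ hP h1 h2 (L := L) (by linarith) k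
      hBL
    refine ⟨a', b', g1, g2, lt_of_lt_of_le h6 g7, ?_⟩
    rw [g5, g6, ← hA, ← hB]
    have hL0 : 0 < L := by linarith
    have ht : 0 < t := by linarith
    have hpos : 0 < B + 2 * t := by linarith
    have e1 : A / (B + 2 * t) - y = 2 * y * (L - t) / (B + 2 * t) := by
      rw [eq_div_iff hpos.ne', sub_mul, div_mul_cancel₀ _ hpos.ne', mul_sub, hLw]
      ring
    rw [e1, abs_div, abs_of_pos hpos, div_lt_iff₀ hpos]
    have h10 : |2 * y * (L - t)| ≤ 2 * y * R := by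
      rw [abs_mul, abs_of_pos (by positivity : 0 < 2 * y)]
      gcongr
      rw [abs_le, hR]
      constructor <;> linarith
    have h11 : 2 * y * R < ε * B := by
      have h12 : (2 * y * R) / ε < B := by
        have : 0 ≤ 2 * (4 * y / ε) := by positivity
        linarith
      rw [div_lt_iff₀ hε] at h12
      linarith
    nlinarith

/-- unbounded excess -/
theorem reach_excess {Φ : ℤ → ℤ → ℝ} (hΦ : Inv Φ) {P : ℤ → ℤ → Prop}
    (hP : TwistClosed P) {y : ℝ} (hy : 0 < y)
    (h : ∀ K : ℝ, ∃ a b : ℤ, IsMinimal a b ∧ P a b ∧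
      y * Real.log (N6 a b) + K ≤ Real.log (Φ a b)) : LimPt Φ N6 P y := by
  intro ε M hε
  set L0 : ℝ := 3 + |M| + (y + 3 * y) / ε with hL0
  have hM := abs_nonneg M
  have hterm : 0 ≤ (y + 3 * y) / ε := by positivity
  obtain ⟨a, b, h1, h2, h3⟩ := h (2 * y * L0)
  set A := Real.log (Φ a b) with hA
  set B := Real.log (N6 a b) with hB
  have hB0 : 0 ≤ B := Real.log_nonneg (N6_one a b)
  set L : ℝ := (A - y * B) / (2 * y) with hL
  have hLw : 2 * y * L = A - y * B := by rw [hL]; field_simp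
  have hLL : L0 ≤ L := by
    rw [hL, le_div_iff₀ (by positivity)]
    linarith
  have hL3 : 3 ≤ L := by linarith
  have hLpos : 0 < L := by linarith
  set k : ℕ := ⌈B / L⌉₊ with hk
  have hk1 : B / L ≤ k := Nat.le_ceil _
  have hk2 : (k : ℝ) ≤ B / L + 1 := (Nat.ceil_lt_add_one (by positivity)).le
  have hkL : B ≤ k * L := by rwa [div_le_iff₀ hLpos] at hk1
  obtain ⟨a', b', t, g1, g2, g3, g4, g5, g6, g7⟩ := twist_to hΦ hP h1 h2 (L := L) (by linarith) k
    hkL
  have ht : 0 < t := by linarith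
  have hpos : 0 < B + 2 * t := by linarith
  refine ⟨a', b', g1, g2, ?_, ?_⟩
  · have h8 : M < Real.log (N6 a' b') := by
      rw [g6]
      have := le_abs_self M
      linarith
    have h9 : Real.log (N6 a' b') ≤ N6 a' b' - 1 :=
      Real.log_le_sub_one_of_pos (by have := N6_one a' b'; linarith)
    linarith
  · rw [g5, g6, ← hA, ← hB]
    have e1 : A / (B + 2 * t) - y = 2 * y * (L - t) / (B + 2 * t) := by
      rw [eq_div_iff hpos.ne', sub_mul, div_mul_cancel₀ _ hpos.ne', mul_sub, hLw]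
      ring
    rw [e1, abs_div, abs_of_pos hpos, div_lt_iff₀ hpos]
    have h10 : |2 * y * (L - t)| ≤ 2 * y * (B / L + 3) := by
      rw [abs_mul, abs_of_pos (by positivity : 0 < 2 * y)]
      gcongr
      rw [abs_le]
      have : 0 ≤ B / L := by positivity
      constructor <;> linarith
    refine lt_of_le_of_lt h10 ?_
    have h12 : (y + 3 * y) / ε < L := by linarith
    rw [div_lt_iff₀ hε] at h12
    -- `2 y (B / L + 3) < ε (B + 2 t)`
    have h13 : 2 * y * (B / L) ≤ ε * B := by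
      have h14 : 2 * y ≤ ε * L := by nlinarith
      calc 2 * y * (B / L) = 2 * y / L * B := by ring
        _ ≤ ε * B := by
            gcongr
            rw [div_le_iff₀ hLpos]
            exact h14
    have h15 : 2 * y * 3 < ε * (2 * t) := by
      have h16 : ε * L ≤ ε * t := by gcongr
      nlinarith
    nlinarith

/-- the limit points form an interval `[0, S]` -/
theorem interval {Φ : ℤ → ℤ → ℝ} (hΦ : Inv Φ) {P : ℤ → ℤ → Prop}
    (hP : TwistClosed P) (hne : ∃ a b, IsMinimal a b ∧ P a b) :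
    ∃ S : EReal, 0 ≤ S ∧ ∀ x : ℝ, LimPt Φ N6 P x ↔ 0 ≤ x ∧ (x : EReal) ≤ S := by
  obtain ⟨a0, b0, hm0, hp0⟩ := hne
  have h0 := reach_zero hΦ hP hm0 hp0
  have hnn : ∀ x, LimPt Φ N6 P x → 0 ≤ x := by
    intro x hx
    by_contra hcon
    push Not at hcon
    obtain ⟨a, b, h1, h2, h4, h5⟩ := hx (-x) 1 (by linarith)
    have h6 : 0 ≤ Real.log (Φ a b) / Real.log (N6 a b) :=
      div_nonneg (Real.log_nonneg (hΦ.one a b h1)) (Real.log_nonneg (N6_one a b))
    have h7 := (abs_lt.mp h5).2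
    linarith
  set Z : Set ℝ := {x | LimPt Φ N6 P x} with hZ
  refine ⟨sSup ((fun x : ℝ => (x : EReal)) '' Z), le_sSup ⟨0, h0, rfl⟩, ?_⟩
  intro x
  constructor
  · intro hx
    exact ⟨hnn x hx, le_sSup ⟨x, hx, rfl⟩⟩
  · rintro ⟨h1, h2⟩
    rcases h1.eq_or_lt with hx | hx
    · rw [← hx]; exact h0
    · refine reach_below hΦ hP hx fun ε M hε => ?_
      have h4 : ((x - ε / 2 : ℝ) : EReal) < sSup ((fun x : ℝ => (x : EReal)) '' Z) := by
        refine lt_of_lt_of_le ?_ h2
        exact_mod_cast (by linarith : x - ε / 2 < x)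
      obtain ⟨z, ⟨y, hy, hyz⟩, hyx⟩ := lt_sSup_iff.mp h4
      have hyx' : x - ε / 2 < y := by
        have hyz' : (y : EReal) = z := hyz
        rw [← hyz'] at hyx
        exact_mod_cast hyx
      obtain ⟨M', -, hM'⟩ := big_of (M := M) (R := 1)
      obtain ⟨a, b, g1, g2, g3, g4⟩ := hy (ε / 2) M' (by linarith)
      obtain ⟨g5, g6⟩ := hM' _ g3
      refine ⟨a, b, g1, g2, g6, ?_⟩
      have g7 := (abs_lt.mp g4).1
      have g8 : x - ε ≤ Real.log (Φ a b) / Real.log (N6 a b) := by linarith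
      rwa [le_div_iff₀ (by linarith)] at g8

/-- above the interval the inequality holds with a constant -/
theorem const_of {Φ : ℤ → ℤ → ℝ} (hΦ : Inv Φ) {P : ℤ → ℤ → Prop}
    (hP : TwistClosed P) {S : EReal} (hS : 0 ≤ S)
    (h : ∀ x : ℝ, LimPt Φ N6 P x → (x : EReal) ≤ S) (κ : ℝ) (hκ : S < κ) :
    ∃ K : ℝ, ∀ a b, IsMinimal a b → P a b →
      Real.log (Φ a b) ≤ κ * Real.log (N6 a b) + K := by
  have h3 : (0 : ℝ) < κ := by
    have : ((0 : ℝ) : EReal) < κ := lt_of_le_of_lt (by exact_mod_cast hS) hκ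
    exact_mod_cast this
  have hno : ¬ LimPt Φ N6 P κ := fun hl => absurd (h κ hl) (not_le.mpr hκ)
  by_contra hcon
  push Not at hcon
  refine hno (reach_excess hΦ hP h3 fun K => ?_)
  obtain ⟨a, b, h1, h2, h4⟩ := hcon K
  exact ⟨a, b, h1, h2, h4.le⟩

end Pool.Agent.Q272.FR
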