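import Pool.Agent.Q272.FR.Fal

/-!
# Products of elliptic curves
-/

set_option autoImplicit false

namespace Pool.Agent.Q272.FR

open Finset Pool.Agent.Q272.LP
open Pool.Agent.H39R3 (GMin condW shortW FullT)
open Pool.Agent.Q272.TR (ht AbcExp SzExp rad rad_pos)
open Pool.Agent.TH876.FH (jInv arch ana)
open Pool.Agent.Y679.Fh (IsP ex_P cH)

/-- limit points of `h / log N` along the products of `n` elliptic curves -/
def LimN (n : ℕ) (N : WeierstrassCurve ℤ → ℝ) (P : WeierstrassCurve ℤ → Prop) (x : ℝ) : Prop :=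
  ∀ ε M : ℝ, 0 < ε → ∃ (W : Fin n → WeierstrassCurve ℤ) (τ : Fin n → UpperHalfPlane),
    (∀ i, GMin (W i) ∧ P (W i) ∧ IsP (W i) (τ i)) ∧ M < ∏ i, N (W i) ∧
    |(∑ i, st (W i) (τ i)) / Real.log (∏ i, N (W i)) - x| < ε

/-- the inequality with slope `κ` for the products of `n` elliptic curves -/
def FrN (n : ℕ) (N : WeierstrassCurve ℤ → ℝ) (P : WeierstrassCurve ℤ → Prop) (κ : ℝ) : Prop :=
  ∃ c : ℝ, ∀ (W : Fin n → WeierstrassCurve ℤ) (τ : Fin n → UpperHalfPlane),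
    (∀ i, GMin (W i) ∧ P (W i) ∧ IsP (W i) (τ i)) →
    ∑ i, st (W i) (τ i) ≤ κ * Real.log (∏ i, N (W i)) + c

variable {N : WeierstrassCurve ℤ → ℝ} {P : WeierstrassCurve ℤ → Prop}

theorem frN_of (n : ℕ) (hN : ∀ W, GMin W → (1 : ℝ) ≤ N W) {κ : ℝ}
    (h : ∃ c : ℝ, ∀ W τ, GMin W → P W → IsP W τ → st W τ ≤ κ * Real.log (N W) + c) :
    FrN n N P κ := by
  obtain ⟨c, hc⟩ := h
  refine ⟨n * c, fun W τ hW => ?_⟩
  rw [Real.log_prod (fun i _ => by have := hN (W i) (hW i).1; linarith), mul_sum]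
  calc ∑ i, st (W i) (τ i) ≤ ∑ i, (κ * Real.log (N (W i)) + c) :=
        sum_le_sum fun i _ => hc (W i) (τ i) (hW i).1 (hW i).2.1 (hW i).2.2
    _ = ∑ i, κ * Real.log (N (W i)) + n * c := by
        rw [sum_add_distrib]
        simp

theorem limN_const {n : ℕ} (hn : 1 ≤ n) (hN : ∀ W, GMin W → (1 : ℝ) ≤ N W) {x : ℝ}
    (h : LimF N P x) : LimN n N P x := by
  intro ε M hε
  obtain ⟨W, τ, h1, h2, h3, h4, h5⟩ := h ε M hε
  refine ⟨fun _ => W, fun _ => τ, fun _ => ⟨h1, h2, h3⟩, ?_, ?_⟩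
  · rw [prod_const, card_univ, Fintype.card_fin]
    calc M < N W := h4
      _ = N W ^ 1 := (pow_one _).symm
      _ ≤ N W ^ n := pow_le_pow_right₀ (hN W h1) hn
  · rw [prod_const, sum_const, card_univ, Fintype.card_fin, Real.log_pow, nsmul_eq_mul,
      mul_div_mul_left _ _ (by exact_mod_cast (by omega : n ≠ 0))]
    exact h5

theorem limN_le {n : ℕ} {κ : ℝ} (h : FrN n N P κ) {x : ℝ} (hx : LimN n N P x) : x ≤ κ := by
  obtain ⟨C, hC⟩ := h
  by_contra hcon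
  push Not at hcon
  set δ := (x - κ) / 2 with hδ
  have hδ0 : 0 < δ := by linarith
  obtain ⟨M', -, hM'⟩ := big_of (M := 0) (R := |C| / δ + 1)
  obtain ⟨W, τ, g1, g4, g5⟩ := hx δ M' hδ0
  obtain ⟨g6, g7⟩ := hM' _ g4
  have hl : 0 ≤ |C| / δ := by positivity
  have hB : 0 < Real.log (∏ i, N (W i)) := by linarith
  have h1 := hC W τ g1
  have h2 := (abs_lt.mp g5).1
  have h3 : κ + δ < (∑ i, st (W i) (τ i)) / Real.log (∏ i, N (W i)) := by
    have : x - δ = κ + δ := by rw [hδ]; ring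
    linarith
  rw [lt_div_iff₀ hB] at h3
  have h4 : |C| < δ * Real.log (∏ i, N (W i)) := by
    have : |C| / δ < Real.log (∏ i, N (W i)) := by linarith
    rwa [div_lt_iff₀ hδ0, mul_comm] at this
  have := le_abs_self C
  nlinarith

theorem limN_nonneg {n : ℕ} {x : ℝ} (hx : LimN n N P x) : 0 ≤ x := by
  obtain ⟨C, hC, k⟩ := st_low
  by_contra hcon
  push Not at hcon
  set δ := -x / 2 with hδ
  have hδ0 : 0 < δ := by linarith
  obtain ⟨M', -, hM'⟩ := big_of (M := 0) (R := n * C / δ + 1)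
  obtain ⟨W, τ, g1, g4, g5⟩ := hx δ M' hδ0
  obtain ⟨g6, g7⟩ := hM' _ g4
  have hnC : 0 ≤ n * C := by positivity
  have hl : 0 ≤ n * C / δ := by positivity
  have hB : 0 < Real.log (∏ i, N (W i)) := by linarith
  have h1 : -(n * C) ≤ ∑ i, st (W i) (τ i) := by
    calc -(n * C) = ∑ _i : Fin n, -C := by simp
      _ ≤ _ := sum_le_sum fun i _ => k (W i) (τ i) (g1 i).2.2
  have h2 := (abs_lt.mp g5).2
  have h3 : (∑ i, st (W i) (τ i)) / Real.log (∏ i, N (W i)) < -δ := by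
    have : δ + x = -δ := by rw [hδ]; ring
    linarith
  rw [div_lt_iff₀ hB] at h3
  have h4 : n * C < δ * Real.log (∏ i, N (W i)) := by
    have h6 : n * C / δ < Real.log (∏ i, N (W i)) := by linarith
    rw [div_lt_iff₀ hδ0] at h6
    linarith
  linarith

/-- what is known about the class `P` -/
structure Cls (N : WeierstrassCurve ℤ → ℝ) (P : WeierstrassCurve ℤ → Prop) (S : EReal) : Prop where
  nonneg : 0 ≤ S
  lim : ∀ x : ℝ, LimF N P x ↔ 0 ≤ x ∧ (x : EReal) ≤ S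
  ineq : ∀ κ : ℝ, S < κ →
    ∃ c : ℝ, ∀ W τ, GMin W → P W → IsP W τ → st W τ ≤ κ * Real.log (N W) + c

theorem Cls.limN {S : EReal} (h : Cls N P S) (hN : ∀ W, GMin W → (1 : ℝ) ≤ N W) {n : ℕ}
    (hn : 1 ≤ n) (x : ℝ) : LimN n N P x ↔ 0 ≤ x ∧ (x : EReal) ≤ S := by
  constructor
  · intro hx
    refine ⟨limN_nonneg hx, ?_⟩
    by_contra hcon
    push Not at hcon
    obtain ⟨y, hy1, hy2⟩ := EReal.lt_iff_exists_real_btwn.mp hcon
    have h1 := limN_le (frN_of n hN (h.ineq y hy1)) hx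
    have h2 : y < x := by exact_mod_cast hy2
    linarith
  · intro hx
    exact limN_const hn hN ((h.lim x).mpr hx)

theorem Cls.frN {S : EReal} (h : Cls N P S) (hN : ∀ W, GMin W → (1 : ℝ) ≤ N W) {n : ℕ}
    (hn : 1 ≤ n) (κ : ℝ) : (S < κ → FrN n N P κ) ∧ (FrN n N P κ → S ≤ κ) := by
  refine ⟨fun hκ => frN_of n hN (h.ineq κ hκ), fun hF => ?_⟩
  by_contra hcon
  push Not at hcon
  obtain ⟨y, hy1, hy2⟩ := EReal.lt_iff_exists_real_btwn.mp hcon
  have hy1' : κ < y := by exact_mod_cast hy1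
  have h0 := limN_le hF ((h.limN hN hn 0).mpr ⟨le_rfl, by exact_mod_cast h.nonneg⟩)
  have h2 := limN_le hF ((h.limN hN hn y).mpr ⟨by linarith, hy2.le⟩)
  linarith

theorem Cls.frey {S : EReal} (h : Cls N P S) (hN : ∀ W, GMin W → (1 : ℝ) ≤ N W) {n : ℕ}
    (hn : 1 ≤ n) (κ : ℝ) : (∀ ε : ℝ, 0 < ε → FrN n N P (κ + ε)) ↔ S ≤ κ := by
  constructor
  · intro h1
    by_contra hcon
    push Not at hcon
    obtain ⟨y, hy1, hy2⟩ := EReal.lt_iff_exists_real_btwn.mp hcon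
    have hy1' : κ < y := by exact_mod_cast hy1
    have h2 := (h.frN hN hn _).2 (h1 (y - κ) (by linarith))
    rw [add_sub_cancel] at h2
    exact absurd hy2 (not_lt.mpr h2)
  · intro hS ε hε
    refine (h.frN hN hn _).1 (lt_of_le_of_lt hS ?_)
    exact_mod_cast (by linarith : κ < κ + ε)

/-- the classes closed under twists -/
theorem cls_of {C : ℝ} (hC : 1 ≤ C)
    (hN : ∀ W, GMin W → (condW W : ℝ) ≤ N W ∧ N W ≤ C * condW W)
    {Q : ℤ → ℤ → Prop} (hPQ : ∀ W a b u, Rel W a b u → (P W ↔ Q a b)) (hQ : TwistClosed Q)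
    (hne : ∃ a b, IsMinimal a b ∧ Q a b) : ∃ S : EReal, Cls N P S := by
  obtain ⟨S', hS0, hS⟩ := interval inv_J hQ hne
  have hlim : ∀ x : ℝ, LimF N P x ↔ 0 ≤ 12 * x ∧ ((12 * x : ℝ) : EReal) ≤ S' := fun x =>
    ((limF_iff_J N P x).trans (limJ_iff hC hN hPQ (12 * x))).trans (hS (12 * x))
  have hineq : ∀ κ : ℝ, 0 ≤ κ → S' < ((12 * κ : ℝ) : EReal) →
      ∃ c : ℝ, ∀ W τ, GMin W → P W → IsP W τ → st W τ ≤ κ * Real.log (N W) + c := by
    intro κ hκ h
    exact ineqF_of (fun W hW => (hN W hW).1) hPQ hκ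
      (const_of inv_J hQ hS0 (fun x hx => ((hS x).mp hx).2) (12 * κ) h)
  induction S' using EReal.rec with
  | bot => exact absurd hS0 (by simp)
  | top =>
    refine ⟨⊤, le_top, fun x => ?_, fun κ hκ => absurd hκ (not_lt.mpr le_top)⟩
    rw [hlim x]
    constructor
    · rintro ⟨h1, -⟩
      exact ⟨by linarith, le_top⟩
    · rintro ⟨h1, -⟩
      exact ⟨by linarith, le_top⟩
  | coe s =>
    have hs0 : 0 ≤ s := by exact_mod_cast hS0
    refine ⟨((s / 12 : ℝ) : EReal), by exact_mod_cast (by positivity : 0 ≤ s / 12),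
      fun x => ?_, fun κ hκ => ?_⟩
    · rw [hlim x, EReal.coe_le_coe_iff, EReal.coe_le_coe_iff]
      constructor
      · rintro ⟨h1, h2⟩
        exact ⟨by linarith, by linarith⟩
      · rintro ⟨h1, h2⟩
        exact ⟨by linarith, by linarith⟩
    · have h1 : s / 12 < κ := by exact_mod_cast hκ
      exact hineq κ (by linarith) (by exact_mod_cast (by linarith : s < 12 * κ))

/-- the bound from the modified Szpiro inequality -/
theorem frey_of_sz (hN : ∀ W, GMin W → (condW W : ℝ) ≤ N W) {κ : ℝ} (hκ : 0 ≤ κ)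
    (h : SzExp (fun _ => True) κ) :
    ∃ c : ℝ, ∀ W τ, GMin W → P W → IsP W τ → st W τ ≤ κ / 12 * Real.log (N W) + c := by
  obtain ⟨C, hC⟩ := h
  obtain ⟨C1, hC1, k1⟩ := st_le
  refine ⟨(Real.log (|C| + 1) + C1) / 12, fun W τ hW _ hτ => ?_⟩
  have h1 := hC W hW trivial
  have h2 := k1 W τ hτ
  have hc1 : (1 : ℝ) ≤ condW W := by exact_mod_cast Pool.Agent.Q272.TR.condW_pos W
  have hc0 : (0 : ℝ) < condW W := by linarith
  have hNW := hN W hW
  have hhq : hq (jW W) ≤ ht W := by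
    have e : jW W = ((W.c₄ ^ 3 : ℤ) : ℚ) / ((W.Δ : ℤ) : ℚ) := by
      unfold jW
      push_cast
      rfl
    rw [e]
    refine (hq_le hW.1).trans (max_le ?_ ?_)
    · push_cast
      rw [abs_pow]
      exact le_max_left _ _
    · have h3 : 1728 * (W.Δ : ℝ) = (W.c₄ : ℝ) ^ 3 - (W.c₆ : ℝ) ^ 2 := by
        exact_mod_cast W.c_relation
      have h4 : |(W.c₄ : ℝ)| ^ 3 ≤ ht W := le_max_left _ _
      have h5 : (W.c₆ : ℝ) ^ 2 ≤ ht W := le_max_right _ _
      have h6 : |1728 * (W.Δ : ℝ)| ≤ |(W.c₄ : ℝ)| ^ 3 + (W.c₆ : ℝ) ^ 2 := by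
        rw [h3, ← abs_pow, ← abs_of_nonneg (sq_nonneg (W.c₆ : ℝ))]
        refine (abs_sub _ _).trans ?_
        rw [abs_abs]
      rw [abs_mul, abs_of_pos (by norm_num : (0 : ℝ) < 1728)] at h6
      have := abs_nonneg (W.Δ : ℝ)
      linarith
  have hq1 := hq_one (jW W)
  have h3 : hq (jW W) ≤ (|C| + 1) * (condW W : ℝ) ^ κ := by
    have := le_abs_self C
    have h4 : (0 : ℝ) ≤ (condW W : ℝ) ^ κ := by positivity
    calc hq (jW W) ≤ ht W := hhq
      _ ≤ C * (condW W : ℝ) ^ κ := h1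
      _ ≤ _ := by
          gcongr
          linarith
  have h4 := Real.log_le_log (by linarith) h3
  rw [Real.log_mul (by positivity) (by positivity), Real.log_rpow hc0] at h4
  have h5 : Real.log (condW W : ℝ) ≤ Real.log (N W) := Real.log_le_log hc0 hNW
  have h6 : κ * Real.log (condW W : ℝ) ≤ κ * Real.log (N W) := by gcongr
  linarith

/-- the exponents of abc are closed upwards -/
theorem abc_mono {l m : ℝ} (hlm : l ≤ m) (h : AbcExp l) : AbcExp m := by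
  obtain ⟨C, hC⟩ := h
  refine ⟨|C|, fun a b c ha hb hc hco => (hC a b c ha hb hc hco).trans ?_⟩
  have h1 : (1 : ℝ) ≤ (rad (a * b * c) : ℝ) := by exact_mod_cast rad_pos _
  have h2 := le_abs_self C
  have h3 : (0 : ℝ) ≤ (rad (a * b * c) : ℝ) ^ l := by positivity
  calc C * (rad (a * b * c) : ℝ) ^ l ≤ |C| * (rad (a * b * c) : ℝ) ^ l := by gcongr
    _ ≤ |C| * (rad (a * b * c) : ℝ) ^ m := by
        gcongr

/-- there are curves with every modular invariant -/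
theorem ex_j (j : ℚ) : ∃ a b, IsMinimal a b ∧ HasJ j a b := by
  by_cases h0 : j = 0
  · refine ⟨0, 1, by simpa using zero_min (p := 5) (k := 0) (by norm_num) (by norm_num), ?_⟩
    unfold HasJ
    rw [h0]
    simp
  by_cases h1 : j = 1728
  · refine ⟨1, 0, by simpa using zero_min' (p := 5) (k := 0) (by norm_num) (by norm_num), ?_⟩
    unfold HasJ Disc
    rw [h1]
    norm_num
  exact j_exists h0 h1

end Pool.Agent.Q272.FR
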